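import Mathlib

/-!
# MP_5ea8b5_ag: the toric case

The lattice is `ℤ ^ n`. The toric variety `X` is affine with a torus fixed point `x`; its cone is
given by the inequalities `lam i ≥ 0`, and by the generators `u j`.
-/

set_option autoImplicit false

namespace Pool.Agent.Results.MP_5ea8b5_ag.ToricExtraction

open Finset

variable {n : ℕ} {I J K : Type}

/-- A lattice point as a real vector. -/
def toR (v : Fin n → ℤ) : Fin n → ℝ := fun i => (v i : ℝ)

/-- The value at `x` of the linear form with the integral coefficients `m` (order of vanishing of the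
monomial with the exponent `m`). -/
def pair (m : Fin n → ℤ) (x : Fin n → ℝ) : ℝ := ∑ i, (m i : ℝ) * x i

/-- The cone with the inequalities `lam`. -/
def Cone (lam : I → Fin n → ℤ) : Set (Fin n → ℝ) := {x | ∀ i, 0 ≤ pair (lam i) x}

/-- The interior of the cone: valuations centred at the fixed point. -/
def Inner (lam : I → Fin n → ℤ) : Set (Fin n → ℝ) := {x | ∀ i, 0 < pair (lam i) x}

/-- The boundary of the cone (the union of the proper faces). -/
def Bdry (lam : I → Fin n → ℤ) : Set (Fin n → ℝ) := {x | x ∈ Cone lam ∧ ∃ i, pair (lam i) x = 0}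

/-- `X` is a terminal affine toric variety with a fixed point: the cone is generated by the lattice
points `u j` of its boundary, the log discrepancy function `ell` of `X` (linear, value `1` at the `u j`)
is greater than `1` at all other nonzero lattice points of the cone, and the cone has interior lattice
points. -/
structure Terminal [Fintype J] (lam : I → Fin n → ℤ) (u : J → Fin n → ℤ)
    (ell : (Fin n → ℝ) →ₗ[ℝ] ℝ) : Prop where
  proper : Nonempty I
  ray : ∀ j, ∀ x ∈ Cone lam, ∀ y ∈ Cone lam, x + y = toR (u j) → ∃ a : ℝ, x = a • toR (u j)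
  gen : ∀ x ∈ Cone lam, ∃ b : J → ℝ, (∀ j, 0 ≤ b j) ∧ x = ∑ j, b j • toR (u j)
  mem : ∀ j, toR (u j) ∈ Bdry lam
  one : ∀ j, ell (toR (u j)) = 1
  terminal : ∀ v : Fin n → ℤ, v ≠ 0 → toR v ∈ Cone lam → (∀ j, v ≠ u j) → 1 < ell (toR v)
  inner : ∃ v : Fin n → ℤ, toR v ∈ Inner lam

/-- The order of a toric valuation along a general combination of the monomials in `A`. -/
noncomputable def ordA (A : Finset (Fin n → ℤ)) (hA : A.Nonempty) (x : Fin n → ℝ) : ℝ :=
  A.inf' hA fun m => pair m x

/-- The log discrepancy of a toric valuation with respect to the pair `(X, B)`, where `B` is the sum of the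
invariant divisor with the log discrepancy function `beta` and of `c k` times a general combination of
the monomials in `A k`. -/
noncomputable def ld [Fintype K] (beta : (Fin n → ℝ) →ₗ[ℝ] ℝ) (c : K → ℝ)
    (A : K → Finset (Fin n → ℤ)) (hA : ∀ k, (A k).Nonempty) (x : Fin n → ℝ) : ℝ :=
  beta x - ∑ k, c k * ordA (A k) (hA k) x

theorem pair_add (m : Fin n → ℤ) (x y : Fin n → ℝ) : pair m (x + y) = pair m x + pair m y := by
  unfold pair
  rw [← sum_add_distrib]
  exact sum_congr rfl fun i _ => by rw [Pi.add_apply]; ring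

theorem pair_smul (m : Fin n → ℤ) (a : ℝ) (x : Fin n → ℝ) : pair m (a • x) = a * pair m x := by
  unfold pair
  rw [mul_sum]
  exact sum_congr rfl fun i _ => by rw [Pi.smul_apply, smul_eq_mul]; ring

theorem pair_toR (m v : Fin n → ℤ) : pair m (toR v) = ((∑ i, m i * v i : ℤ) : ℝ) := by
  unfold pair toR
  push_cast
  rfl

theorem toR_sub (v w : Fin n → ℤ) : toR (v - w) = toR v - toR w := by
  funext i
  simp [toR]

theorem ordA_add_le (A : Finset (Fin n → ℤ)) (hA : A.Nonempty) (x y : Fin n → ℝ) :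
    ordA A hA x + ordA A hA y ≤ ordA A hA (x + y) := by
  unfold ordA
  refine le_inf' _ _ fun m hm => ?_
  rw [pair_add]
  exact add_le_add (inf'_le _ hm) (inf'_le _ hm)

theorem ordA_smul (A : Finset (Fin n → ℤ)) (hA : A.Nonempty) (a : ℝ) (ha : 0 ≤ a)
    (x : Fin n → ℝ) : ordA A hA (a • x) = a * ordA A hA x := by
  refine le_antisymm ?_ ?_
  · obtain ⟨m, hm, h⟩ := exists_mem_eq_inf' hA fun m => pair m x
    unfold ordA
    rw [h]
    refine (inf'_le _ hm).trans ?_
    rw [pair_smul]
  · unfold ordA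
    refine le_inf' _ _ fun m hm => ?_
    rw [pair_smul]
    exact mul_le_mul_of_nonneg_left (inf'_le _ hm) ha

section

variable [Fintype K] (beta : (Fin n → ℝ) →ₗ[ℝ] ℝ) (c : K → ℝ) (A : K → Finset (Fin n → ℤ))
  (hA : ∀ k, (A k).Nonempty)

theorem ld_add (hc : ∀ k, 0 ≤ c k) (x y : Fin n → ℝ) :
    ld beta c A hA (x + y) ≤ ld beta c A hA x + ld beta c A hA y := by
  have h : ∑ k, c k * ordA (A k) (hA k) x + ∑ k, c k * ordA (A k) (hA k) y ≤
      ∑ k, c k * ordA (A k) (hA k) (x + y) := by
    rw [← sum_add_distrib]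
    refine sum_le_sum fun k _ => ?_
    rw [← mul_add]
    exact mul_le_mul_of_nonneg_left (ordA_add_le _ _ _ _) (hc k)
  unfold ld
  rw [map_add]
  linarith

theorem ld_smul (a : ℝ) (ha : 0 ≤ a) (x : Fin n → ℝ) :
    ld beta c A hA (a • x) = a * ld beta c A hA x := by
  unfold ld
  rw [map_smul, smul_eq_mul, mul_sub, mul_sum]
  congr 1
  refine sum_congr rfl fun k _ => ?_
  rw [ordA_smul _ _ _ ha]
  ring

theorem ld_zero : ld beta c A hA 0 = 0 := by
  have h := ld_smul beta c A hA 0 le_rfl 0
  rw [zero_smul, zero_mul] at h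
  exact h

theorem ld_sum (hc : ∀ k, 0 ≤ c k) {J : Type} (s : Finset J) (b : J → ℝ) (hb : ∀ j, 0 ≤ b j)
    (y : J → Fin n → ℝ) :
    ld beta c A hA (∑ j ∈ s, b j • y j) ≤ ∑ j ∈ s, b j * ld beta c A hA (y j) := by
  classical
  induction s using Finset.induction_on with
  | empty => rw [sum_empty, sum_empty, ld_zero]
  | insert j s hj ih =>
    rw [sum_insert hj, sum_insert hj]
    refine (ld_add beta c A hA hc _ _).trans ?_
    rw [ld_smul _ _ _ _ _ (hb j)]
    exact add_le_add le_rfl ih

end

/-- Dickson: a function on a set of lattice points of the cone which does not decrease when one adds a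
lattice point of the cone of the same type has a minimum. -/
theorem exists_min [Fintype I] [Fintype K] (A : K → Finset (Fin n → ℤ))
    (hA : ∀ k, (A k).Nonempty) (lam : I → Fin n → ℤ) (S : Set (Fin n → ℤ)) (hS : S.Nonempty)
    (hSC : ∀ v ∈ S, toR v ∈ Cone lam) (g : (Fin n → ℤ) → ℝ)
    (hg : ∀ v ∈ S, ∀ w ∈ S, ∀ r : K → Fin n → ℤ, (∀ k, r k ∈ A k) →
      (∀ k, ∀ m ∈ A k, pair (r k) (toR v) ≤ pair m (toR v)) →
      (∀ k, ∀ m ∈ A k, pair (r k) (toR w) ≤ pair m (toR w)) →
      toR (w - v) ∈ Cone lam → (∀ k, ∀ m ∈ A k, pair (r k) (toR (w - v)) ≤ pair m (toR (w - v))) →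
      g v ≤ g w) : ∃ v ∈ S, ∀ w ∈ S, g v ≤ g w := by
  classical
  by_contra hcon
  push Not at hcon
  -- an infinite decreasing sequence
  obtain ⟨v0, hv0⟩ := hS
  choose! nx hnx using hcon
  let f : ℕ → Fin n → ℤ := fun k => nx^[k] v0
  have hfS : ∀ k, f k ∈ S := by
    intro k
    induction k with
    | zero => exact hv0
    | succ k ih =>
      have h1 : f (k + 1) = nx (f k) := Function.iterate_succ_apply' nx k v0
      rw [h1]
      exact (hnx _ ih).1
  have hdec : ∀ k, g (f (k + 1)) < g (f k) := by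
    intro k
    have h1 : f (k + 1) = nx (f k) := Function.iterate_succ_apply' nx k v0
    rw [h1]
    exact (hnx _ (hfS k)).2
  have hanti : StrictAnti fun k => g (f k) := strictAnti_nat_of_succ_lt hdec
  -- the types
  have hex : ∀ (k : ℕ) (j : K), ∃ m : A j, ∀ m' ∈ A j, pair (m : Fin n → ℤ) (toR (f k)) ≤
      pair m' (toR (f k)) := by
    intro k j
    obtain ⟨m, hm, h⟩ := exists_min_image (A j) (fun m => pair m (toR (f k))) (hA j)
    exact ⟨⟨m, hm⟩, h⟩
  choose ty hty using hex
  -- an infinite set of indices with the same type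
  obtain ⟨r, hr⟩ := Finite.exists_infinite_fiber fun k : ℕ => (fun j => ty k j : ∀ j, A j)
  have hinf : (((fun k : ℕ => (fun j => ty k j : ∀ j, A j)) ⁻¹' {r}) : Set ℕ).Infinite :=
    Set.infinite_coe_iff.1 hr
  let e : ℕ → ℕ := fun i => Nat.nth (fun k => (fun j => ty k j : ∀ j, A j) = r) i
  have hinf' : {k : ℕ | (fun j => ty k j : ∀ j, A j) = r}.Infinite := hinf
  have he : StrictMono e := Nat.nth_strictMono hinf'
  have her : ∀ i, (fun j => ty (e i) j : ∀ j, A j) = r := fun i => Nat.nth_mem_of_infinite hinf' i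
  -- coordinates
  let La : ℕ → (I ⊕ (Σ j : K, A j)) → ℕ := fun i s => match s with
    | Sum.inl a => (∑ t, lam a t * f (e i) t).toNat
    | Sum.inr b => (∑ t, (b.2 : Fin n → ℤ) t * f (e i) t -
        ∑ t, (r b.1 : Fin n → ℤ) t * f (e i) t).toNat
  obtain ⟨i, i', hlt, hle⟩ := wellQuasiOrdered_le La
  have hCone : ∀ i a, (0 : ℤ) ≤ ∑ t, lam a t * f (e i) t := by
    intro i a
    have h1 := hSC _ (hfS (e i)) a
    rw [pair_toR] at h1
    exact_mod_cast h1
  have hTy : ∀ i (b : Σ j : K, A j), (0 : ℤ) ≤ ∑ t, (b.2 : Fin n → ℤ) t * f (e i) t -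
      ∑ t, (r b.1 : Fin n → ℤ) t * f (e i) t := by
    intro i b
    have h1 := hty (e i) b.1 b.2 b.2.2
    have h2 : ty (e i) b.1 = r b.1 := congrFun (her i) b.1
    rw [h2, pair_toR, pair_toR] at h1
    have h3 : (∑ t, (r b.1 : Fin n → ℤ) t * f (e i) t) ≤ ∑ t, (b.2 : Fin n → ℤ) t * f (e i) t := by
      exact_mod_cast h1
    linarith
  have h1 := hg (f (e i)) (hfS _) (f (e i')) (hfS _) (fun j => r j) (fun j => (r j).2)
    (fun j m hm => by
      have h2 : ty (e i) j = r j := congrFun (her i) j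
      rw [← h2]
      exact hty (e i) j m hm)
    (fun j m hm => by
      have h2 : ty (e i') j = r j := congrFun (her i') j
      rw [← h2]
      exact hty (e i') j m hm)
    (fun a => by
      rw [pair_toR]
      have h2 := hle (Sum.inl a)
      have h3 : ∑ t, lam a t * f (e i) t ≤ ∑ t, lam a t * f (e i') t := by
        have h4 : (∑ t, lam a t * f (e i) t).toNat ≤ (∑ t, lam a t * f (e i') t).toNat := h2
        have h5 := hCone i a
        have h6 := hCone i' a
        omega
      have h7 : (0 : ℤ) ≤ ∑ t, lam a t * (f (e i') - f (e i)) t := by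
        have h8 : ∑ t, lam a t * (f (e i') - f (e i)) t =
            ∑ t, lam a t * f (e i') t - ∑ t, lam a t * f (e i) t := by
          rw [← sum_sub_distrib]
          exact sum_congr rfl fun t _ => by rw [Pi.sub_apply]; ring
        rw [h8]
        linarith
      exact_mod_cast h7)
    (fun j m hm => by
      rw [pair_toR, pair_toR]
      have h2 := hle (Sum.inr ⟨j, ⟨m, hm⟩⟩)
      have h5 := hTy i ⟨j, ⟨m, hm⟩⟩
      have h6 := hTy i' ⟨j, ⟨m, hm⟩⟩
      have h4 : (∑ t, m t * f (e i) t - ∑ t, (r j : Fin n → ℤ) t * f (e i) t).toNat ≤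
          (∑ t, m t * f (e i') t - ∑ t, (r j : Fin n → ℤ) t * f (e i') t).toNat := h2
      have h7 : ∀ q : Fin n → ℤ, ∑ t, q t * (f (e i') - f (e i)) t =
          ∑ t, q t * f (e i') t - ∑ t, q t * f (e i) t := by
        intro q
        rw [← sum_sub_distrib]
        exact sum_congr rfl fun t _ => by rw [Pi.sub_apply]; ring
      have h8 : ∑ t, (r j : Fin n → ℤ) t * (f (e i') - f (e i)) t ≤
          ∑ t, m t * (f (e i') - f (e i)) t := by
        rw [h7, h7]
        have h9 : (∑ t, m t * f (e i) t - ∑ t, (r j : Fin n → ℤ) t * f (e i) t) ≤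
          (∑ t, m t * f (e i') t - ∑ t, (r j : Fin n → ℤ) t * f (e i') t) := by
          have h5' : (0 : ℤ) ≤ ∑ t, m t * f (e i) t - ∑ t, (r j : Fin n → ℤ) t * f (e i) t := h5
          have h6' : (0 : ℤ) ≤ ∑ t, m t * f (e i') t - ∑ t, (r j : Fin n → ℤ) t * f (e i') t := h6
          omega
        linarith
      exact_mod_cast h8)
  exact absurd h1 (not_le.2 (hanti (he hlt)))

theorem ordA_eq (A : Finset (Fin n → ℤ)) (hA : A.Nonempty) (x : Fin n → ℝ) (r : Fin n → ℤ)
    (hr : r ∈ A) (h : ∀ m ∈ A, pair r x ≤ pair m x) : ordA A hA x = pair r x :=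
  le_antisymm (inf'_le _ hr) (le_inf' _ _ h)

theorem ell_nonneg [Fintype J] {lam : I → Fin n → ℤ} {u : J → Fin n → ℤ}
    {ell : (Fin n → ℝ) →ₗ[ℝ] ℝ} (hX : Terminal lam u ell) (x : Fin n → ℝ) (hx : x ∈ Cone lam) :
    ∃ b : J → ℝ, (∀ j, 0 ≤ b j) ∧ x = ∑ j, b j • toR (u j) ∧ ell x = ∑ j, b j := by
  obtain ⟨b, hb, h⟩ := hX.gen x hx
  refine ⟨b, hb, h, ?_⟩
  rw [h, map_sum]
  exact sum_congr rfl fun j _ => by rw [map_smul, hX.one, smul_eq_mul, mul_one]

theorem result [Fintype I] [Fintype J] [Fintype K]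
    (lam : I → Fin n → ℤ) (u : J → Fin n → ℤ) (ell beta : (Fin n → ℝ) →ₗ[ℝ] ℝ)
    (hX : Terminal lam u ell) (hbeta : ∀ j, beta (toR (u j)) ≤ 1)
    (c : K → ℝ) (hc : ∀ k, 0 ≤ c k) (A : K → Finset (Fin n → ℤ)) (hA : ∀ k, (A k).Nonempty)
    (hpos : ∀ k, ∀ m ∈ A k, ∀ x ∈ Cone lam, 0 ≤ pair m x)
    (hlc : ∀ v : Fin n → ℤ, toR v ∈ Cone lam → 0 ≤ ld beta c A hA (toR v))
    (hmld : ∀ v : Fin n → ℤ, toR v ∈ Inner lam → 1 ≤ ld beta c A hA (toR v)) :
    ∃ v : Fin n → ℤ, toR v ∈ Inner lam ∧
      (∀ w : Fin n → ℤ, toR w ∈ Inner lam → ld beta c A hA (toR v) ≤ ld beta c A hA (toR w)) ∧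
      (∀ (w : Fin n → ℤ) (d : ℤ), v = d • w → d = 1 ∨ d = -1) ∧
      1 < ell (toR v) ∧
      ∀ (w : Fin n → ℤ) (a : ℝ) (f : Fin n → ℝ), w ≠ 0 → w ≠ v → (∀ j, w ≠ u j) → 0 ≤ a →
        f ∈ Bdry lam → toR w = a • toR v + f → 1 < a + ell f := by
  classical
  obtain ⟨i0⟩ := hX.proper
  have hIC : ∀ x ∈ Inner lam, x ∈ Cone lam := fun x hx i => (hx i).le
  -- additivity on the cones of linearity
  have hadd : ∀ (v w : Fin n → ℤ) (r : K → Fin n → ℤ), (∀ k, r k ∈ A k) →
      (∀ k, ∀ m ∈ A k, pair (r k) (toR v) ≤ pair m (toR v)) →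
      (∀ k, ∀ m ∈ A k, pair (r k) (toR w) ≤ pair m (toR w)) →
      (∀ k, ∀ m ∈ A k, pair (r k) (toR (w - v)) ≤ pair m (toR (w - v))) →
      ld beta c A hA (toR w) = ld beta c A hA (toR v) + ld beta c A hA (toR (w - v)) := by
    intro v w r hr h1 h2 h3
    have hs : toR w = toR v + toR (w - v) := by
      rw [toR_sub]
      abel
    have h4 : ∑ k, c k * ordA (A k) (hA k) (toR w) = ∑ k, c k * ordA (A k) (hA k) (toR v) +
        ∑ k, c k * ordA (A k) (hA k) (toR (w - v)) := by
      rw [← sum_add_distrib]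
      refine sum_congr rfl fun k _ => ?_
      rw [ordA_eq _ _ _ _ (hr k) (h1 k), ordA_eq _ _ _ _ (hr k) (h2 k),
        ordA_eq _ _ _ _ (hr k) (h3 k), ← mul_add, ← pair_add, ← hs]
    have h5 : beta (toR w) = beta (toR v) + beta (toR (w - v)) := by
      rw [← map_add, ← hs]
    unfold ld
    rw [h4, h5]
    ring
  -- the minimal log discrepancy
  obtain ⟨v1, hv1, hmin1⟩ := exists_min A hA lam {v : Fin n → ℤ | toR v ∈ Inner lam} hX.inner
    (fun v hv => hIC _ hv) (fun v => ld beta c A hA (toR v))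
    (fun v _ w _ r hr h1 h2 hC h3 => by
      show ld beta c A hA (toR v) ≤ ld beta c A hA (toR w)
      rw [hadd v w r hr h1 h2 h3]
      have := hlc _ hC
      linarith)
  -- among the divisors computing it: minimise `ell`
  obtain ⟨v, ⟨hv, hmin⟩, hell⟩ := exists_min A hA lam {v : Fin n → ℤ | toR v ∈ Inner lam ∧
      ∀ w : Fin n → ℤ, toR w ∈ Inner lam → ld beta c A hA (toR v) ≤ ld beta c A hA (toR w)}
    ⟨v1, hv1, hmin1⟩ (fun v hv => hIC _ hv.1) (fun v => ell (toR v))
    (fun v _ w _ r _ _ _ hC _ => by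
      show ell (toR v) ≤ ell (toR w)
      have hs : toR w = toR v + toR (w - v) := by
        rw [toR_sub]
        abel
      obtain ⟨b, hb, -, h⟩ := ell_nonneg hX _ hC
      have h0 : 0 ≤ ∑ j, b j := sum_nonneg fun j _ => hb j
      rw [hs, map_add]
      linarith)
  have hv0 : v ≠ 0 := by
    rintro rfl
    have h := hv i0
    rw [pair_toR] at h
    simp at h
  have hlv : 1 < ell (toR v) := by
    refine hX.terminal v hv0 (hIC _ hv) fun j hj => ?_
    obtain ⟨-, i, hi⟩ := hX.mem j
    have h := hv i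
    rw [hj, hi] at h
    exact lt_irrefl _ h
  have hm1 := hmld v hv
  refine ⟨v, hv, hmin, ?_, hlv, ?_⟩
  · -- primitive
    intro w d hd
    by_contra hcon
    push Not at hcon
    obtain ⟨hd1, hd2⟩ := hcon
    have hd0 : d ≠ 0 := by
      rintro rfl
      rw [zero_smul] at hd
      exact hv0 hd
    -- the multiple `(|d|)⁻¹ v`
    obtain ⟨w', hw'⟩ : ∃ w' : Fin n → ℤ, v = |d| • w' := by
      rcases abs_choice d with h | h
      · exact ⟨w, by rw [h]; exact hd⟩
      · exact ⟨-w, by rw [h, neg_smul_neg]; exact hd⟩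
    have habs : (2 : ℤ) ≤ |d| := by
      have h1 : 0 < |d| := abs_pos.2 hd0
      have h2 : |d| ≠ 1 := by
        intro h
        rcases abs_eq (by norm_num : (0 : ℤ) ≤ 1) |>.1 h with h | h
        · exact hd1 h
        · exact hd2 h
      omega
    have habsR : (2 : ℝ) ≤ ((|d| : ℤ) : ℝ) := by exact_mod_cast habs
    have hsm : toR v = ((|d| : ℤ) : ℝ) • toR w' := by
      funext i
      rw [Pi.smul_apply, smul_eq_mul]
      unfold toR
      rw [hw', Pi.smul_apply, smul_eq_mul]
      push_cast
      rfl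
    have hw'I : toR w' ∈ Inner lam := by
      intro i
      have h := hv i
      rw [hsm, pair_smul] at h
      by_contra hh
      push Not at hh
      nlinarith
    have h1 := hmin w' hw'I
    have h2 := hmld w' hw'I
    rw [hsm, ld_smul _ _ _ _ _ (by linarith)] at h1
    nlinarith
  · intro w a f hw0 hwv hwu ha hf hdec
    by_contra hcon
    push Not at hcon
    obtain ⟨b, hb, hfb, hef⟩ := ell_nonneg hX f hf.1
    have hef0 : 0 ≤ ell f := by
      rw [hef]
      exact sum_nonneg fun j _ => hb j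
    rcases ha.eq_or_lt with h0 | hapos
    · -- a face of `X`
      rw [← h0, zero_smul, zero_add] at hdec
      have h := hX.terminal w hw0 (by rw [hdec]; exact hf.1) hwu
      rw [hdec] at h
      linarith
    · have hwI : toR w ∈ Inner lam := by
        intro i
        rw [hdec, pair_add, pair_smul]
        have h1 := mul_pos hapos (hv i)
        have h2 := hf.1 i
        linarith
      have hldf : ld beta c A hA f ≤ ell f := by
        have h1 := ld_sum beta c A hA hc univ b hb (fun j => toR (u j))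
        have h3 : ∀ j, ld beta c A hA (toR (u j)) ≤ 1 := by
          intro j
          have h4 : 0 ≤ ∑ k, c k * ordA (A k) (hA k) (toR (u j)) :=
            sum_nonneg fun k _ => mul_nonneg (hc k)
              (le_inf' _ _ fun m hm => hpos k m hm _ (hX.mem j).1)
          have h5 := hbeta j
          unfold ld
          linarith
        have h2 : ∑ j, b j * ld beta c A hA (toR (u j)) ≤ ∑ j, b j :=
          sum_le_sum fun j _ => by
            have := mul_le_mul_of_nonneg_left (h3 j) (hb j)
            linarith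
        rw [hef]
        exact ((congrArg (ld beta c A hA) hfb).le.trans h1).trans h2
      have hldw : ld beta c A hA (toR w) ≤ a * ld beta c A hA (toR v) + ell f := by
        rw [hdec]
        refine (ld_add beta c A hA hc _ _).trans ?_
        rw [ld_smul _ _ _ _ _ ha]
        linarith
      have hge := hmin w hwI
      rcases lt_or_ge a 1 with ha1 | ha1
      · have hm : ld beta c A hA (toR v) ≤ 1 := by
          by_contra hh
          push Not at hh
          nlinarith
        have hwmin : ∀ w' : Fin n → ℤ, toR w' ∈ Inner lam →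
            ld beta c A hA (toR w) ≤ ld beta c A hA (toR w') := by
          intro w' hw'
          have h1 := hmld w' hw'
          have h2 : ld beta c A hA (toR v) = 1 := le_antisymm hm hm1
          rw [h2] at hldw
          linarith
        have h3 := hell w ⟨hwI, hwmin⟩
        have h4 : ell (toR w) = a * ell (toR v) + ell f := by
          rw [hdec, map_add, map_smul, smul_eq_mul]
        have h5 : ell (toR v) ≤ ell (toR w) := h3
        nlinarith
      · -- `f = 0`
        have h1 : ∑ j, b j = 0 := by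
          rw [← hef]
          linarith
        have h2 : ∀ j, b j = 0 := fun j =>
          (sum_eq_zero_iff_of_nonneg fun j _ => hb j).1 h1 j (mem_univ j)
        have h3 : f = 0 := by
          rw [hfb]
          exact sum_eq_zero fun j _ => by rw [h2 j, zero_smul]
        have h4 : a = 1 := by linarith
        apply hwv
        rw [h3, h4, one_smul, add_zero] at hdec
        funext i
        have h5 := congrFun hdec i
        unfold toR at h5
        exact_mod_cast h5

end Pool.Agent.Results.MP_5ea8b5_ag.ToricExtraction
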